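import Pool.Agent.H37.CNM.Stmts

/-!
# Row PMX of the board `cnm`
-/

set_option autoImplicit false

namespace Pool.CND

open Finset
open scoped Matrix

theorem pmx_thm (h1 : S_APD) (h2 : S_APE) (h3 : S_ZHF) (h4 : S_PCN) : S_PMX := by
  intro p k G _ _ _ _ _ A hp hp2 hcd hA
  haveI : Fact p.Prime := ⟨hp⟩
  obtain ⟨a1, a2⟩ := h1 p k G A hp hp2 hcd hA
  have a3 := (h4 p k G hp hp2 hcd).2
  have hcen : A ≤ Subgroup.center G → (Subgroup.centralizer (A : Set G)).index = 1 := by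
    intro h
    rw [Subgroup.index_eq_one, Subgroup.centralizer_eq_top_iff_subset]
    exact h
  refine ⟨a1, a2, a3, ?_, ?_⟩
  · intro hidx
    rw [hidx] at a2
    rcases (Nat.dvd_prime hp).1 a2 with h | h
    · exfalso
      have h5 := a3.1 h
      have h6 := hcen fun a ha => h5 a (hA.2.1.1 a ha)
      rw [hidx] at h6
      exact hp.one_lt.ne' h6
    · exact h
  · rintro ⟨C, hC, hC'⟩
    by_cases hc : A ≤ Subgroup.center G
    · have h6 := hcen hc
      rw [h6] at a2 ⊢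
      exact Nat.dvd_one.1 a2
    · obtain ⟨n, κ, β, hn, hidx, b1, b2, b3, b4, b5⟩ := h2 p G A C hcd hA.1 hA.2.1 hC hC' hc
      have h7 := h3 p n 1 k (ZMod p) G κ β hp hn le_rfl hcd b1 b2 b3 b4 b5
      have h8 : Nat.gcd 2 p = 1 := (Nat.coprime_primes Nat.prime_two hp).2 (Ne.symm hp2)
      rw [h8, one_mul, Nat.card_zmod, ← hidx] at h7
      exact Nat.dvd_antisymm a2 h7

end Pool.CND
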